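import Mathlib

/-!
# MP_c65526_co : the principal ratio of a regular graph minus an edge

We show that `γ(G - e) ≤ n²` for every connected regular graph `G` on `n` vertices and every
non-bridge edge `e`, so the answer to Q1 is yes with `C = 2`.

Idea.  Let `H = G - e`, `e = uv`, and let `q > 0` be an eigenvector of `H`.  Then `q` is
superharmonic away from `u, v`, and the flow of `q` into `{x : q x ≤ t}` is at most the sum of
the values of `q` at those of `u, v` which lie in this set.  Hence `q` increases by at most
`q u` along every edge below the level `q v`, and by at most `q u + q v` along every edge.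
-/

set_option autoImplicit false

namespace Pool.Agent.Results.MP_c65526_co.QuadraticBound

open Finset

/-- `q` is a principal eigenvector of `H`: all coordinates are positive and `q` is an
eigenvector of the adjacency matrix for its largest eigenvalue. -/
def IsPrincipal {V : Type} [Fintype V] [DecidableEq V] (H : SimpleGraph V) [DecidableRel H.Adj]
    (q : V → ℝ) : Prop :=
  (∀ x, 0 < q x) ∧ ∃ l : ℝ, (H.adjMatrix ℝ).mulVec q = l • q ∧
    ∀ (m : ℝ) (p : V → ℝ), p ≠ 0 → (H.adjMatrix ℝ).mulVec p = m • p → m ≤ l

/-- The ratio of the largest to the smallest coordinate; for a principal eigenvector of a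
connected graph this is its principal ratio. -/
noncomputable def ratio {V : Type} (q : V → ℝ) : ℝ := (⨆ x, q x) / (⨅ x, q x)

section Main

variable {V : Type} [Fintype V] [DecidableEq V] (H : SimpleGraph V) [DecidableRel H.Adj]

/-- The flow identity: increments of `q` across the boundary of `{q ≤ t}`. -/
theorem step (q : V → ℝ) (w : V → ℝ)
    (hw : ∀ x, ∑ y, (if H.Adj x y then q y - q x else 0) ≤ w x)
    (x0 y0 : V) (h : H.Adj x0 y0) (hlt : q x0 < q y0) :
    q y0 - q x0 ≤ ∑ x ∈ univ.filter (fun x => q x ≤ q x0), w x := by
  classical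
  set S := univ.filter (fun x => q x ≤ q x0) with hS
  let a : V → V → ℝ := fun x y => if H.Adj x y then q y - q x else 0
  have hanti : ∀ x y, a x y = - a y x := by
    intro x y
    simp only [a]
    by_cases hxy : H.Adj x y
    · rw [if_pos hxy, if_pos hxy.symm]; ring
    · rw [if_neg hxy, if_neg (fun h' => hxy h'.symm)]; ring
  have hin : ∑ x ∈ S, ∑ y ∈ S, a x y = 0 := by
    have h1 : ∑ x ∈ S, ∑ y ∈ S, a x y = ∑ x ∈ S, ∑ y ∈ S, a y x := Finset.sum_comm
    have h2 : ∑ x ∈ S, ∑ y ∈ S, a x y = - ∑ x ∈ S, ∑ y ∈ S, a y x := by
      rw [← Finset.sum_neg_distrib]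
      refine Finset.sum_congr rfl fun x _ => ?_
      rw [← Finset.sum_neg_distrib]
      exact Finset.sum_congr rfl fun y _ => hanti x y
    linarith
  have hsplit : ∑ x ∈ S, ∑ y, a x y = ∑ x ∈ S, ∑ y ∈ Sᶜ, a x y := by
    have : ∀ x, ∑ y, a x y = ∑ y ∈ S, a x y + ∑ y ∈ Sᶜ, a x y := by
      intro x
      rw [Finset.sum_add_sum_compl]
    simp_rw [this]
    rw [Finset.sum_add_distrib, hin, zero_add]
  have hnonneg : ∀ x ∈ S, ∀ y ∈ Sᶜ, 0 ≤ a x y := by
    intro x hx y hy
    simp only [hS, mem_filter, mem_univ, true_and, mem_compl, not_le] at hx hy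
    simp only [a]
    split_ifs
    · linarith
    · exact le_refl _
  have hx0 : x0 ∈ S := by simp [hS]
  have hy0 : y0 ∈ Sᶜ := by simp [hS, hlt]
  calc q y0 - q x0 = a x0 y0 := by simp [a, h]
    _ ≤ ∑ y ∈ Sᶜ, a x0 y := Finset.single_le_sum (f := fun y => a x0 y) (hnonneg x0 hx0) hy0
    _ ≤ ∑ x ∈ S, ∑ y ∈ Sᶜ, a x y :=
        Finset.single_le_sum (f := fun x => ∑ y ∈ Sᶜ, a x y)
          (fun x hx => Finset.sum_nonneg (hnonneg x hx)) hx0
    _ = ∑ x ∈ S, ∑ y, a x y := hsplit.symm
    _ ≤ ∑ x ∈ S, w x := Finset.sum_le_sum fun x _ => hw x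

/-- The key bound for a positive function whose Laplacian has two sinks `u, v`. -/
theorem key (hconn : H.Connected) (q : V → ℝ) (hpos : ∀ x, 0 < q x) (u v : V)
    (hw : ∀ x, ∑ y, (if H.Adj x y then q y - q x else 0) ≤ if x = u ∨ x = v then q x else 0)
    (huv : u ≠ v) (hle : q u ≤ q v) (z z' : V) :
    q z ≤ (Fintype.card V : ℝ) ^ 2 * q z' := by
  classical
  let w : V → ℝ := fun x => if x = u ∨ x = v then q x else 0
  have hw0 : ∀ x, 0 ≤ w x := by
    intro x; simp only [w]; split_ifs
    · exact (hpos x).le
    · exact le_refl _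
  have hstep := fun x0 y0 h hlt => step H q w hw x0 y0 h hlt
  -- total weight
  have htot : ∀ S : Finset V, ∑ x ∈ S, w x ≤ q u + q v := by
    intro S
    calc ∑ x ∈ S, w x ≤ ∑ x, w x := Finset.sum_le_sum_of_subset_of_nonneg (subset_univ _)
          (fun x _ _ => hw0 x)
      _ = ∑ x ∈ ({u, v} : Finset V), w x := by
          symm
          apply Finset.sum_subset (subset_univ _)
          intro x _ hx
          simp only [mem_insert, mem_singleton] at hx
          simp only [w, if_neg hx]
      _ = q u + q v := by
          rw [Finset.sum_pair huv]; simp [w]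
  -- weight below `q v`
  have hlow : ∀ t, t < q v → ∑ x ∈ univ.filter (fun x => q x ≤ t), w x ≤ q u := by
    intro t ht
    calc ∑ x ∈ univ.filter (fun x => q x ≤ t), w x
        ≤ ∑ x ∈ univ.filter (fun x => q x ≤ t), (if x = u then q u else 0) := by
          apply Finset.sum_le_sum
          intro x hx
          simp only [mem_filter, mem_univ, true_and] at hx
          by_cases hxu : x = u
          · subst hxu; simp [w]
          · by_cases hxv : x = v
            · rw [hxv] at hx; linarith
            · simp [w, hxu, hxv]
      _ ≤ ∑ x, (if x = u then q u else 0) := by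
          apply Finset.sum_le_sum_of_subset_of_nonneg (subset_univ _)
          intro x _ _
          split_ifs
          · exact (hpos u).le
          · exact le_refl _
      _ = q u := by simp
  -- `u` is a minimum
  have hmin : ∀ x, q u ≤ q x := by
    obtain ⟨m, -, hm⟩ := Finset.exists_min_image univ q ⟨u, mem_univ _⟩
    by_contra hcon
    push Not at hcon
    obtain ⟨x, hx⟩ := hcon
    have hmu : q m < q u := lt_of_le_of_lt (hm x (mem_univ _)) hx
    obtain ⟨p⟩ := hconn.preconnected m u
    obtain ⟨d, -, hd1, hd2⟩ := p.exists_boundary_dart {x | q x ≤ q m} (by simp)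
      (by simpa using hmu)
    simp only [Set.mem_ofPred_eq, not_le] at hd1 hd2
    have h1 := hstep d.fst d.snd d.adj (lt_of_le_of_lt hd1 hd2)
    have h2 : ∑ x ∈ univ.filter (fun x => q x ≤ q d.fst), w x = 0 := by
      apply Finset.sum_eq_zero
      intro y hy
      simp only [mem_filter, mem_univ, true_and] at hy
      have hyu : y ≠ u := by rintro rfl; linarith
      have hyv : y ≠ v := by rintro rfl; linarith
      simp [w, hyu, hyv]
    linarith
  have hqu := hpos u
  have hqv := hpos v
  -- first phase
  have hphase1 : ∀ (x y : V) (p : H.Walk x y), y = u →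
      q x ≤ (1 + (p.length : ℝ)) * q u ∨ q v ≤ (1 + (p.length : ℝ)) * q u := by
    intro x y p
    induction p with
    | nil => intro h; subst h; left; simp
    | @cons a b c hab p ih =>
      intro hc
      have ih' := ih hc
      simp only [SimpleGraph.Walk.length_cons, Nat.cast_add, Nat.cast_one]
      have hl : (0 : ℝ) ≤ (p.length : ℝ) := Nat.cast_nonneg _
      rcases ih' with h1 | h1
      · by_cases hba : q b < q a
        · have h2 := hstep b a hab.symm hba
          by_cases hbv : q b < q v
          · left
            have h3 := hlow (q b) hbv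
            nlinarith
          · right
            push Not at hbv
            nlinarith
        · left
          push Not at hba
          nlinarith
      · right; nlinarith
  have hphase2 : ∀ (x y : V) (p : H.Walk x y), y = u →
      q x ≤ q u + (p.length : ℝ) * (q u + q v) := by
    intro x y p
    induction p with
    | nil => intro h; subst h; simp
    | @cons a b c hab p ih =>
      intro hc
      have ih' := ih hc
      simp only [SimpleGraph.Walk.length_cons, Nat.cast_add, Nat.cast_one]
      by_cases hba : q b < q a
      · have h2 := hstep b a hab.symm hba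
        have h3 := htot (univ.filter (fun x => q x ≤ q b))
        nlinarith
      · push Not at hba
        nlinarith
  have hcard : ∀ x, ∃ p : H.Walk x u, (p.length : ℝ) ≤ (Fintype.card V : ℝ) - 1 := by
    intro x
    obtain ⟨p, hp⟩ := (hconn.preconnected x u).exists_isPath
    refine ⟨p, ?_⟩
    have := hp.length_lt
    have h2 : (p.length : ℝ) + 1 ≤ (Fintype.card V : ℝ) := by exact_mod_cast this
    linarith
  set n : ℝ := (Fintype.card V : ℝ) with hn
  have hqvn : q v ≤ n * q u := by
    obtain ⟨p, hp⟩ := hcard v
    have := hphase1 v u p rfl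
    rcases this with h | h <;> nlinarith
  have hn1 : 1 ≤ n := by
    have : 0 < Fintype.card V := Fintype.card_pos_iff.2 ⟨u⟩
    rw [hn]; exact_mod_cast this
  obtain ⟨p, hp⟩ := hcard z
  have hz := hphase2 z u p rfl
  have hpl : (0 : ℝ) ≤ (p.length : ℝ) := Nat.cast_nonneg _
  have h5 : q z ≤ q u + (n - 1) * (q u + n * q u) := by
    have : (p.length : ℝ) * (q u + q v) ≤ (n - 1) * (q u + n * q u) := by
      apply mul_le_mul hp (by linarith) (by linarith) (by linarith)
    linarith
  have h6 : q u + (n - 1) * (q u + n * q u) = n ^ 2 * q u := by ring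
  have h7 : n ^ 2 * q u ≤ n ^ 2 * q z' := by
    apply mul_le_mul_of_nonneg_left (hmin z') (by positivity)
  linarith

end Main

/-- **Main theorem.**  If `G` is a connected regular graph on `n` vertices and `e` is an edge of
`G` which is not a bridge, then every principal eigenvector `q` of `G - e` satisfies
`max q / min q ≤ n²`. -/
theorem result (V : Type) [Fintype V] [DecidableEq V] (G : SimpleGraph V) [DecidableRel G.Adj]
    (hconn : G.Connected) (d : ℕ) (hreg : G.IsRegularOfDegree d)
    (e : Sym2 V) (he : e ∈ G.edgeSet) (hbridge : ¬ G.IsBridge e)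
    (q : V → ℝ) (hq : IsPrincipal (G.deleteEdges {e}) q) :
    ratio q ≤ (Fintype.card V : ℝ) ^ 2 := by
  classical
  obtain ⟨hpos, l, hl, -⟩ := hq
  induction e with | h u v =>
  have hadj : G.Adj u v := he
  have huv : u ≠ v := hadj.ne
  set H := G.deleteEdges {s(u, v)} with hH
  have hHconn : H.Connected := hconn.connected_delete_edge_of_not_isBridge hbridge
  -- eigenvalue equations
  have heig : ∀ x, ∑ y, (if H.Adj x y then q y else 0) = l * q x := by
    intro x
    have := congrFun hl x
    simp only [Matrix.mulVec, dotProduct, SimpleGraph.adjMatrix_apply, Pi.smul_apply,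
      smul_eq_mul, ite_mul, one_mul, zero_mul] at this
    exact this
  have hdegG : ∀ x, ∑ y, (if G.Adj x y then (1 : ℝ) else 0) = d := by
    intro x
    rw [Finset.sum_boole]
    have := hreg x
    rw [← SimpleGraph.card_neighborFinset_eq_degree] at this
    rw [← this]
    congr 2
    ext y; simp
  have hHadj : ∀ x y, H.Adj x y ↔ G.Adj x y ∧ s(x, y) ≠ s(u, v) := by
    intro x y
    simp [hH, SimpleGraph.deleteEdges_adj]
  have hdegH : ∀ x, ∑ y, (if H.Adj x y then (1 : ℝ) else 0)
      = if x = u ∨ x = v then (d : ℝ) - 1 else d := by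
    intro x
    have hdiff : ∀ y, (if H.Adj x y then (1 : ℝ) else 0)
        = (if G.Adj x y then (1 : ℝ) else 0) - (if s(x, y) = s(u, v) then 1 else 0) := by
      intro y
      by_cases h1 : s(x, y) = s(u, v)
      · have h2 : G.Adj x y := by
          have : s(x, y) ∈ G.edgeSet := by rw [h1]; exact he
          exact this
        have h3 : ¬ H.Adj x y := by rw [hHadj]; tauto
        rw [if_neg h3, if_pos h2, if_pos h1]; ring
      · by_cases h2 : G.Adj x y
        · have h3 : H.Adj x y := by rw [hHadj]; exact ⟨h2, h1⟩
          rw [if_pos h3, if_pos h2, if_neg h1]; ring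
        · have h3 : ¬ H.Adj x y := by rw [hHadj]; tauto
          rw [if_neg h3, if_neg h2, if_neg h1]; ring
    rw [Finset.sum_congr rfl (fun y _ => hdiff y), Finset.sum_sub_distrib, hdegG]
    by_cases hxu : x = u
    · subst hxu
      have : ∀ y, (if s(x, y) = s(x, v) then (1 : ℝ) else 0) = if y = v then 1 else 0 := by
        intro y
        congr 1
        simp only [Sym2.eq_iff, true_and, eq_iff_iff]
        constructor
        · rintro (h | ⟨h1, h2⟩)
          · exact h
          · exact absurd h1 huv
        · intro h; exact Or.inl h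
      rw [Finset.sum_congr rfl (fun y _ => this y)]
      simp
    · by_cases hxv : x = v
      · subst hxv
        have : ∀ y, (if s(x, y) = s(u, x) then (1 : ℝ) else 0) = if y = u then 1 else 0 := by
          intro y
          congr 1
          simp only [Sym2.eq_iff, eq_iff_iff]
          constructor
          · rintro (⟨h1, h2⟩ | ⟨h1, h2⟩)
            · exact absurd h1 hxu
            · exact h2
          · intro h; exact Or.inr ⟨trivial, h⟩
        rw [Finset.sum_congr rfl (fun y _ => this y)]
        simp
      · have : ∀ y, (if s(x, y) = s(u, v) then (1 : ℝ) else 0) = 0 := by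
          intro y
          rw [if_neg]
          simp only [Sym2.eq_iff, not_or]
          exact ⟨fun h => hxu h.1, fun h => hxv h.1⟩
        rw [Finset.sum_congr rfl (fun y _ => this y)]
        simp [hxu, hxv]
  -- the sum of all eigenvalue equations
  have hsum : ((d : ℝ) - l) * ∑ x, q x = q u + q v := by
    have h1 : ∑ x, ∑ y, (if H.Adj x y then q y else 0) = l * ∑ x, q x := by
      rw [Finset.mul_sum]; exact Finset.sum_congr rfl fun x _ => heig x
    have h2 : ∑ x, ∑ y, (if H.Adj x y then q y else 0)
        = ∑ y, q y * (if y = u ∨ y = v then (d : ℝ) - 1 else d) := by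
      rw [Finset.sum_comm]
      refine Finset.sum_congr rfl fun y _ => ?_
      rw [← hdegH y, Finset.mul_sum]
      refine Finset.sum_congr rfl fun x _ => ?_
      by_cases h : H.Adj x y
      · rw [if_pos h, if_pos h.symm]; ring
      · rw [if_neg h, if_neg (fun h' => h h'.symm)]; ring
    have h3 : ∑ y, q y * (if y = u ∨ y = v then (d : ℝ) - 1 else d)
        = d * ∑ y, q y - (q u + q v) := by
      have h4 : ∀ y, q y * (if y = u ∨ y = v then (d : ℝ) - 1 else d)
          = d * q y - (if y = u ∨ y = v then q y else 0) := by
        intro y; split_ifs <;> ring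
      rw [Finset.sum_congr rfl (fun y _ => h4 y), Finset.sum_sub_distrib, ← Finset.mul_sum]
      congr 1
      have h5 : ∑ y ∈ ({u, v} : Finset V), (if y = u ∨ y = v then q y else 0)
          = ∑ y, (if y = u ∨ y = v then q y else 0) := by
        apply Finset.sum_subset (subset_univ _)
        intro x _ hx
        simp only [mem_insert, mem_singleton] at hx
        rw [if_neg hx]
      rw [← h5, Finset.sum_pair huv]
      simp
    rw [h1, h3] at h2
    linarith
  have hQpos : 0 < ∑ x, q x := Finset.sum_pos (fun x _ => hpos x) ⟨u, mem_univ _⟩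
  have heps : 0 < (d : ℝ) - l := by
    have h1 := hpos u
    have h2 := hpos v
    by_contra hneg
    push Not at hneg
    nlinarith
  have hw : ∀ x, ∑ y, (if H.Adj x y then q y - q x else 0)
      ≤ if x = u ∨ x = v then q x else 0 := by
    intro x
    have h1 : ∑ y, (if H.Adj x y then q y - q x else 0)
        = l * q x - (if x = u ∨ x = v then (d : ℝ) - 1 else d) * q x := by
      rw [← heig x, ← hdegH x, Finset.sum_mul, ← Finset.sum_sub_distrib]
      refine Finset.sum_congr rfl fun y _ => ?_
      split_ifs <;> ring
    rw [h1]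
    have hx := hpos x
    split_ifs
    · nlinarith
    · nlinarith
  have hmain : ∀ z z', q z ≤ (Fintype.card V : ℝ) ^ 2 * q z' := by
    intro z z'
    rcases le_total (q u) (q v) with h | h
    · exact key H hHconn q hpos u v hw huv h z z'
    · refine key H hHconn q hpos v u ?_ huv.symm h z z'
      intro x
      have := hw x
      simpa only [or_comm] using this
  -- conclusion
  have : Nonempty V := ⟨u⟩
  have hbddA : BddAbove (Set.range q) := Set.finite_range q |>.bddAbove
  have hbddB : BddBelow (Set.range q) := Set.finite_range q |>.bddBelow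
  obtain ⟨m, hm⟩ := exists_eq_ciInf_of_finite (f := q)
  unfold ratio
  rw [← hm, div_le_iff₀ (hpos m)]
  exact ciSup_le fun z => hmain z m

end Pool.Agent.Results.MP_c65526_co.QuadraticBound
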